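import Pool.Agent.Work.MP_2738db_nt_Z.Interface

/-!
# MP_2738db_nt, Theorem Z, block MOM: the moment sieve (helper55)
-/

set_option autoImplicit false

namespace Pool.Agent.Work.MP_2738db_nt_Z.helper55

open Finset Pool.Agent.Work.MP_2738db_nt_Z

namespace Mom

/-- sums of a bounded periodic function of mean zero over initial segments -/
theorem range_le {W : ℕ} (hW : 0 < W) (h : ℕ → ℝ) (hp : ∀ c, h (c + W) = h c)
    (h0 : ∑ c ∈ range W, h c = 0) (h1 : ∀ c, |h c| ≤ 1) : ∀ N : ℕ, |∑ c ∈ range N, h c| ≤ W := by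
  intro N
  induction N using Nat.strong_induction_on with
  | _ N ih =>
    by_cases hN : N < W
    · calc |∑ c ∈ range N, h c| ≤ ∑ c ∈ range N, |h c| := abs_sum_le_sum_abs _ _
        _ ≤ ∑ _c ∈ range N, (1 : ℝ) := sum_le_sum fun c _ => h1 c
        _ = N := by simp
        _ ≤ W := by exact_mod_cast hN.le
    · obtain ⟨M, rfl⟩ : ∃ M, N = W + M := Nat.exists_eq_add_of_le (not_lt.1 hN)
      rw [sum_range_add, h0, zero_add]
      have e : ∑ x ∈ range M, h (W + x) = ∑ x ∈ range M, h x :=
        sum_congr rfl fun x _ => by rw [add_comm W x, hp]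
      rw [e]
      exact ih M (by omega)

theorem Icc_le {W : ℕ} (hW : 0 < W) (h : ℕ → ℝ) (hp : ∀ c, h (c + W) = h c)
    (h0 : ∑ c ∈ range W, h c = 0) (h1 : ∀ c, |h c| ≤ 1) (N : ℕ) :
    |∑ c ∈ Icc 1 N, h c| ≤ W := by
  have e : ∑ c ∈ Icc 1 N, h c = ∑ c ∈ range N, h (c + 1) := by
    rw [range_eq_Ico, sum_Ico_add' (fun c => h c) 0 N 1]
    congr 1
  rw [e]
  refine range_le hW (fun c => h (c + 1)) ?_ ?_ (fun c => h1 _) N
  · intro c
    have := hp (c + 1)
    rw [← this]
    congr 1
    ring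
  · have h2 := sum_range_succ' h W
    have h3 := sum_range_succ h W
    have h4 := hp 0
    rw [zero_add] at h4
    linarith

section
variable (P : ℕ → ℕ → Prop)

open Classical in
/-- the balanced function -/
noncomputable def g (q c : ℕ) : ℝ :=
  (if P q c then 0 else 1) - (1 - (Nat.card {x : Fin q // P q (x : ℕ)} : ℝ) / q)

open Classical in
/-- the same on residues -/
noncomputable def gz (q : ℕ) (x : ZMod q) : ℝ :=
  (if P q x.val then 0 else 1) - (1 - (Nat.card {x : Fin q // P q (x : ℕ)} : ℝ) / q)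

variable {P}

theorem card_le (q : ℕ) : Nat.card {x : Fin q // P q (x : ℕ)} ≤ q := by
  classical
  rw [Nat.card_eq_fintype_card]
  refine (Fintype.card_subtype_le _).trans ?_
  rw [Fintype.card_fin]

theorem abs_g {q : ℕ} (hq : 0 < q) (c : ℕ) : |g P q c| ≤ 1 := by
  have hq' : (0 : ℝ) < q := by exact_mod_cast hq
  have h1 : (Nat.card {x : Fin q // P q (x : ℕ)} : ℝ) ≤ q := by exact_mod_cast card_le q
  have h2 : (0 : ℝ) ≤ (Nat.card {x : Fin q // P q (x : ℕ)} : ℝ) := Nat.cast_nonneg _
  have h3 : (Nat.card {x : Fin q // P q (x : ℕ)} : ℝ) / q ≤ 1 := by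
    rw [div_le_one hq']
    exact h1
  have h4 : 0 ≤ (Nat.card {x : Fin q // P q (x : ℕ)} : ℝ) / q := div_nonneg h2 hq'.le
  unfold g
  rw [abs_le]
  split_ifs <;> constructor <;> linarith

theorem g_eq_gz {q : ℕ} [NeZero q]
    (hP : ∀ c c' : ℕ, (c : ZMod q) = (c' : ZMod q) → P q c → P q c') (c : ℕ) :
    g P q c = gz P q (c : ZMod q) := by
  unfold g gz
  have h : P q c ↔ P q ((c : ZMod q).val) := by
    have e : (((c : ZMod q).val : ℕ) : ZMod q) = (c : ZMod q) := ZMod.natCast_zmod_val _
    exact ⟨hP _ _ e.symm, hP _ _ e⟩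
  by_cases hc : P q c
  · rw [if_pos hc, if_pos (h.1 hc)]
  · rw [if_neg hc, if_neg (fun h' => hc (h.2 h'))]

theorem sum_range_cast {q : ℕ} [NeZero q] (F : ZMod q → ℝ) :
    ∑ b ∈ range q, F (b : ZMod q) = ∑ x : ZMod q, F x := by
  refine sum_bij' (fun b _ => (b : ZMod q)) (fun x _ => x.val) ?_ ?_ ?_ ?_ ?_
  · intro b _; exact mem_univ _
  · intro x _; exact mem_range.2 (ZMod.val_lt x)
  · intro b hb
    exact ZMod.val_cast_of_lt (mem_range.1 hb)
  · intro x _; exact ZMod.natCast_zmod_val x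
  · intro b _; rfl

theorem sum_gz {q : ℕ} [NeZero q] : ∑ x : ZMod q, gz P q x = 0 := by
  classical
  have hq : (0 : ℝ) < q := by exact_mod_cast Nat.pos_of_ne_zero (NeZero.ne q)
  have h1 : ∑ x : ZMod q, gz P q x = ∑ b ∈ range q, gz P q (b : ZMod q) :=
    (sum_range_cast _).symm
  have h2 : ∑ b ∈ range q, gz P q (b : ZMod q) = ∑ b ∈ range q,
      ((if P q b then (0 : ℝ) else 1) - (1 - (Nat.card {x : Fin q // P q (x : ℕ)} : ℝ) / q)) := by
    refine sum_congr rfl fun b hb => ?_
    unfold gz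
    rw [ZMod.val_cast_of_lt (mem_range.1 hb)]
  rw [h1, h2, sum_sub_distrib, sum_const, card_range, nsmul_eq_mul]
  have h3 : ∑ b ∈ range q, (if P q b then (0 : ℝ) else 1) =
      q - (Nat.card {x : Fin q // P q (x : ℕ)} : ℝ) := by
    have h4 : ∀ b ∈ range q, (if P q b then (0 : ℝ) else 1) = 1 - (if P q b then 1 else 0) := by
      intro b _
      split_ifs <;> simp
    rw [sum_congr rfl h4, sum_sub_distrib, sum_const, card_range, nsmul_eq_mul, mul_one,
      ← sum_filter, sum_const, nsmul_eq_mul, mul_one]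
    congr 2
    rw [Nat.card_eq_fintype_card, Fintype.card_subtype]
    refine card_bij' (fun b hb => (⟨b, mem_range.1 (mem_filter.1 hb).1⟩ : Fin q))
      (fun x _ => (x : ℕ)) ?_ ?_ ?_ ?_
    · intro b hb
      rw [mem_filter]
      exact ⟨mem_univ _, (mem_filter.1 hb).2⟩
    · intro x hx
      rw [mem_filter, mem_range]
      exact ⟨x.2, (mem_filter.1 hx).2⟩
    · intro b _; rfl
    · intro x _; rfl
  rw [h3]
  field_simp
  ring

/-- the sum over a period of a product with a simple factor -/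
theorem period_sum {q W : ℕ} (hq : q.Prime) (hW : 0 < W) (hqW : ¬ q ∣ W)
    (hP : ∀ c c' : ℕ, (c : ZMod q) = (c' : ZMod q) → P q c → P q c') (h : ℕ → ℝ)
    (hp : ∀ c, h (c + W) = h c) : ∑ c ∈ range (W * q), g P q c * h c = 0 := by
  have : Fact q.Prime := ⟨hq⟩
  have : NeZero q := ⟨hq.ne_zero⟩
  have hp' : ∀ a b : ℕ, h (a + W * b) = h a := by
    intro a b
    induction b with
    | zero => simp
    | succ b ih =>
      rw [← ih, ← hp (a + W * b)]
      congr 1
      ring
  have h1 : ∑ c ∈ range (W * q), g P q c * h c =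
      ∑ a ∈ range W, ∑ b ∈ range q, g P q (a + W * b) * h (a + W * b) := by
    rw [← sum_product']
    refine sum_bij' (fun c _ => (c % W, c / W)) (fun p _ => p.1 + W * p.2) ?_ ?_ ?_ ?_ ?_
    · intro c hc
      rw [mem_product, mem_range, mem_range]
      exact ⟨Nat.mod_lt _ hW, Nat.div_lt_of_lt_mul (mem_range.1 hc)⟩
    · rintro ⟨a, b⟩ hab
      rw [mem_product, mem_range, mem_range] at hab
      rw [mem_range]
      calc a + W * b < W + W * b := by
            have := hab.1
            omega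
        _ = W * (b + 1) := by ring
        _ ≤ W * q := Nat.mul_le_mul_left _ hab.2
    · intro c _
      exact Nat.mod_add_div c W
    · rintro ⟨a, b⟩ hab
      rw [mem_product, mem_range, mem_range] at hab
      simp only [Prod.mk.injEq]
      constructor
      · rw [Nat.add_mul_mod_self_left, Nat.mod_eq_of_lt hab.1]
      · rw [Nat.add_mul_div_left _ _ hW, Nat.div_eq_of_lt hab.1, zero_add]
    · intro c _
      simp only []
      rw [Nat.mod_add_div]
  rw [h1]
  refine sum_eq_zero fun a _ => ?_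
  have h2 : ∀ b ∈ range q, g P q (a + W * b) * h (a + W * b) =
      (fun x : ZMod q => gz P q ((a : ZMod q) + (W : ZMod q) * x)) (b : ZMod q) * h a := by
    intro b _
    rw [hp', g_eq_gz hP]
    push_cast
    rfl
  rw [sum_congr rfl h2, ← sum_mul,
    sum_range_cast (fun x : ZMod q => gz P q ((a : ZMod q) + (W : ZMod q) * x))]
  have hWu : (W : ZMod q) ≠ 0 := by
    rw [Ne, ZMod.natCast_eq_zero_iff]
    exact hqW
  have h3 : ∑ x : ZMod q, gz P q ((a : ZMod q) + (W : ZMod q) * x) = ∑ x : ZMod q, gz P q x := by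
    refine Fintype.sum_bijective (fun x => (a : ZMod q) + (W : ZMod q) * x) ?_ _ _
      (fun _ => rfl)
    constructor
    · intro x y hxy
      simp only [add_right_inj] at hxy
      exact mul_left_cancel₀ hWu hxy
    · intro y
      refine ⟨(W : ZMod q)⁻¹ * (y - a), ?_⟩
      simp only []
      rw [mul_inv_cancel_left₀ hWu]
      ring
  rw [h3, sum_gz, zero_mul]

/-- functions with few values -/
theorem card_few (Q : Finset ℕ) (hQ : Q.Nonempty) (r : ℕ) :
    ((Fintype.piFinset (fun _ : Fin (2 * r) => Q)).filter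
      (fun u => (univ.image u).card ≤ r)).card ≤ r ^ (2 * r) * Q.card ^ r := by
  classical
  obtain ⟨q0, hq0⟩ := hQ
  have h1 : (Fintype.piFinset (fun _ : Fin (2 * r) => Q)).filter
      (fun u => (univ.image u).card ≤ r) ⊆
      ((univ : Finset (Fin (2 * r) → Fin r)) ×ˢ (Fintype.piFinset (fun _ : Fin r => Q))).image
        (fun p => p.2 ∘ p.1) := by
    intro u hu
    rw [mem_filter, Fintype.mem_piFinset] at hu
    obtain ⟨hu1, hu2⟩ := hu
    have h2 : Fintype.card (univ.image u : Finset ℕ) ≤ Fintype.card (Fin r) := by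
      rw [Fintype.card_coe, Fintype.card_fin]
      exact hu2
    obtain ⟨e⟩ := Function.Embedding.nonempty_of_card_le h2
    have hmem : ∀ i, u i ∈ univ.image u := fun i => mem_image_of_mem u (mem_univ i)
    rw [mem_image]
    refine ⟨(fun i => e ⟨u i, hmem i⟩,
      Function.extend e (fun x : (univ.image u : Finset ℕ) => (x : ℕ)) (fun _ => q0)), ?_, ?_⟩
    · rw [mem_product]
      refine ⟨mem_univ _, ?_⟩
      rw [Fintype.mem_piFinset]
      intro j
      show Function.extend e (fun x : (univ.image u : Finset ℕ) => (x : ℕ)) (fun _ => q0) j ∈ Q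
      by_cases hj : ∃ x, e x = j
      · obtain ⟨x, rfl⟩ := hj
        rw [e.injective.extend_apply]
        obtain ⟨i, _, hi⟩ := mem_image.1 x.2
        rw [← hi]
        exact hu1 i
      · rw [Function.extend_apply' _ _ _ hj]
        exact hq0
    · funext i
      simp only [Function.comp]
      rw [e.injective.extend_apply]
  refine (card_le_card h1).trans (card_image_le.trans ?_)
  rw [card_product, Fintype.card_piFinset]
  simp

/-- if no value is simple, there are at most `r` values -/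
theorem image_le (r : ℕ) (u : Fin (2 * r) → ℕ)
    (h : ∀ i, ∃ j, j ≠ i ∧ u j = u i) : (univ.image u).card ≤ r := by
  classical
  have h1 : ∀ b ∈ univ.image u, 2 ≤ (univ.filter (fun i => u i = b)).card := by
    intro b hb
    obtain ⟨i, _, rfl⟩ := mem_image.1 hb
    obtain ⟨j, hj, hj'⟩ := h i
    refine (le_of_eq (card_pair hj).symm).trans ?_
    apply card_le_card
    intro x hx
    rw [mem_insert, mem_singleton] at hx
    rw [mem_filter]
    rcases hx with rfl | rfl
    · exact ⟨mem_univ _, hj'⟩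
    · exact ⟨mem_univ _, rfl⟩
  have h2 := card_nsmul_le_sum (univ.image u) (fun b => (univ.filter (fun i => u i = b)).card) 2 h1
  have h3 : ∑ b ∈ univ.image u, (univ.filter (fun i => u i = b)).card = 2 * r := by
    rw [← card_eq_sum_card_image u univ, card_univ, Fintype.card_fin]
  rw [h3, smul_eq_mul] at h2
  omega

end

end Mom

open Mom

theorem stmt_Mom : Stmt_Mom := by
  classical
  intro Q z N r hQ hne hr P hP hw
  have hQp : ∀ q ∈ Q, 0 < q := fun q hq => (hQ q hq).1.pos
  have hz : 1 ≤ z := by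
    obtain ⟨q, hq⟩ := hne
    exact (hQ q hq).1.one_lt.le.trans (hQ q hq).2
  have hz' : (1 : ℝ) ≤ z := by exact_mod_cast hz
  have hQc : (0 : ℝ) < Q.card := by exact_mod_cast card_pos.2 hne
  set C := (Icc 1 N).filter (fun c => ∀ q ∈ Q, P q c) with hC
  have hcard : Nat.card {c : ℕ // 1 ≤ c ∧ c ≤ N ∧ ∀ q ∈ Q, P q c} = C.card := by
    have e : Nat.card {c : ℕ // 1 ≤ c ∧ c ≤ N ∧ ∀ q ∈ Q, P q c} = Nat.card {c : ℕ // c ∈ C} := by
      apply Nat.card_congr
      refine Equiv.subtypeEquivRight fun c => ?_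
      rw [hC, mem_filter, mem_Icc]
      tauto
    rw [e, Nat.card_eq_fintype_card, Fintype.card_coe]
  rw [hcard]
  -- the moment
  set f : ℕ → ℝ := fun c => ∑ q ∈ Q, g P q c with hf
  have hlow : ∀ c ∈ C, ((Q.card : ℝ) / 6) ^ (2 * r) ≤ f c ^ (2 * r) := by
    intro c hc
    have h1 : ∀ q ∈ Q, g P q c ≤ -(1 / 6) := by
      intro q hq
      have hq0 : (0 : ℝ) < q := by exact_mod_cast hQp q hq
      have h2 := (mem_filter.1 hc).2 q hq
      unfold g
      rw [if_pos h2]
      have h3 : (6 : ℝ) * (Nat.card {x : Fin q // P q (x : ℕ)} : ℝ) ≤ 5 * q := by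
        exact_mod_cast hw q hq
      have h4 : (Nat.card {x : Fin q // P q (x : ℕ)} : ℝ) / q ≤ 5 / 6 := by
        rw [div_le_iff₀ hq0]
        linarith
      linarith
    have h2 : f c ≤ -((Q.card : ℝ) / 6) := by
      have := sum_le_sum h1
      rw [sum_const, nsmul_eq_mul] at this
      rw [hf]
      simp only []
      linarith
    have h3 : (Q.card : ℝ) / 6 ≤ -f c := by linarith
    have h4 := pow_le_pow_left₀ (by positivity : (0 : ℝ) ≤ (Q.card : ℝ) / 6) h3 (2 * r)
    rwa [Even.neg_pow (even_two_mul r)] at h4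
  have hup1 : (C.card : ℝ) * ((Q.card : ℝ) / 6) ^ (2 * r) ≤ ∑ c ∈ Icc 1 N, f c ^ (2 * r) := by
    calc (C.card : ℝ) * ((Q.card : ℝ) / 6) ^ (2 * r) = ∑ _c ∈ C, ((Q.card : ℝ) / 6) ^ (2 * r) := by
          rw [sum_const, nsmul_eq_mul]
      _ ≤ ∑ c ∈ C, f c ^ (2 * r) := sum_le_sum hlow
      _ ≤ ∑ c ∈ Icc 1 N, f c ^ (2 * r) := by
          apply sum_le_sum_of_subset_of_nonneg (filter_subset _ _)
          intro c _ _
          rw [pow_mul]
          exact pow_nonneg (sq_nonneg _) _
  -- expansion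
  have hexp : ∑ c ∈ Icc 1 N, f c ^ (2 * r) =
      ∑ u ∈ Fintype.piFinset (fun _ : Fin (2 * r) => Q), ∑ c ∈ Icc 1 N, ∏ i, g P (u i) c := by
    rw [sum_comm]
    refine sum_congr rfl fun c _ => ?_
    rw [hf]
    exact sum_pow' Q (fun q => g P q c) (2 * r)
  -- one tuple
  have htriv : ∀ u ∈ Fintype.piFinset (fun _ : Fin (2 * r) => Q),
      ∑ c ∈ Icc 1 N, ∏ i, g P (u i) c ≤ N := by
    intro u hu
    rw [Fintype.mem_piFinset] at hu
    calc ∑ c ∈ Icc 1 N, ∏ i, g P (u i) c ≤ ∑ _c ∈ Icc 1 N, (1 : ℝ) := by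
          refine sum_le_sum fun c _ => ?_
          refine (le_abs_self _).trans ?_
          rw [abs_prod]
          exact prod_le_one (fun i _ => abs_nonneg _) (fun i _ => abs_g (hQp _ (hu i)) c)
      _ = N := by simp
  have hsimple : ∀ u ∈ Fintype.piFinset (fun _ : Fin (2 * r) => Q),
      ¬ (univ.image u).card ≤ r → ∑ c ∈ Icc 1 N, ∏ i, g P (u i) c ≤ (z : ℝ) ^ (2 * r) := by
    intro u hu hs
    rw [Fintype.mem_piFinset] at hu
    have h1 : ∃ i, ∀ j, j ≠ i → u j ≠ u i := by
      by_contra hc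
      push Not at hc
      exact hs (image_le r u hc)
    obtain ⟨i0, hi0⟩ := h1
    set S := (univ.image u).erase (u i0) with hS
    set W := ∏ q ∈ S, q with hWd
    have hSQ : ∀ q ∈ S, q ∈ Q := by
      intro q hq
      obtain ⟨i, _, rfl⟩ := mem_image.1 (mem_of_mem_erase hq)
      exact hu i
    have hW0 : 0 < W := prod_pos fun q hq => hQp q (hSQ q hq)
    have hqp : (u i0).Prime := (hQ _ (hu i0)).1
    have hnd : ¬ u i0 ∣ W := by
      intro hd
      obtain ⟨q, hq, hd'⟩ := (hqp.prime.dvd_finsetProd_iff _).1 hd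
      have := (Nat.prime_dvd_prime_iff_eq hqp (hQ q (hSQ q hq)).1).1 hd'
      rw [hS, mem_erase] at hq
      exact hq.1 this.symm
    -- the other factors
    set h : ℕ → ℝ := fun c => ∏ i ∈ univ.erase i0, g P (u i) c with hh
    have hper : ∀ c, h (c + W) = h c := by
      intro c
      rw [hh]
      refine prod_congr rfl fun i hi => ?_
      have hiS : u i ∈ S := by
        rw [hS, mem_erase]
        exact ⟨hi0 i (ne_of_mem_erase hi), mem_image_of_mem u (mem_univ i)⟩
      have : NeZero (u i) := ⟨(hQ _ (hu i)).1.ne_zero⟩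
      rw [g_eq_gz (hP _ (hu i)), g_eq_gz (hP _ (hu i))]
      congr 1
      push_cast
      have : ((W : ℕ) : ZMod (u i)) = 0 := by
        rw [ZMod.natCast_eq_zero_iff]
        exact dvd_prod_of_mem _ hiS
      rw [this, add_zero]
    have hsplit : ∀ c, ∏ i, g P (u i) c = g P (u i0) c * h c := fun c =>
      (mul_prod_erase univ (fun i => g P (u i) c) (mem_univ i0)).symm
    have hz0 := period_sum hqp hW0 hnd (hP _ (hu i0)) h hper
    have hperq : ∀ c, g P (u i0) (c + W * u i0) = g P (u i0) c := by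
      intro c
      have : NeZero (u i0) := ⟨hqp.ne_zero⟩
      rw [g_eq_gz (hP _ (hu i0)), g_eq_gz (hP _ (hu i0))]
      congr 1
      push_cast
      simp
    have hperW : ∀ k c, h (c + W * k) = h c := by
      intro k c
      induction k with
      | zero => simp
      | succ k ih =>
        rw [← ih, ← hper (c + W * k)]
        congr 1
        ring
    have hb := Icc_le (W := W * u i0) (Nat.mul_pos hW0 hqp.pos) (fun c => ∏ i, g P (u i) c)
      (fun c => by
        show ∏ i, g P (u i) (c + W * u i0) = ∏ i, g P (u i) c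
        rw [hsplit, hsplit, hperq, hperW])
      (by
        simp only [hsplit]
        exact hz0)
      (fun c => by
        show |∏ i, g P (u i) c| ≤ 1
        rw [abs_prod]
        exact prod_le_one (fun i _ => abs_nonneg _) (fun i _ => abs_g (hQp _ (hu i)) c)) N
    refine (le_abs_self _).trans (hb.trans ?_)
    have hWz : W * u i0 ≤ z ^ (2 * r) := by
      have e : W * u i0 = ∏ q ∈ univ.image u, q := by
        rw [mul_comm, hWd, hS]
        exact mul_prod_erase (univ.image u) (fun q => q)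
          (mem_image_of_mem u (mem_univ i0))
      rw [e]
      calc ∏ q ∈ univ.image u, q ≤ ∏ _q ∈ univ.image u, z := by
            refine prod_le_prod' fun q hq => ?_
            obtain ⟨i, _, rfl⟩ := mem_image.1 hq
            exact (hQ _ (hu i)).2
        _ = z ^ (univ.image u).card := by rw [prod_const]
        _ ≤ z ^ (2 * r) := by
            apply Nat.pow_le_pow_right hz
            refine card_image_le.trans ?_
            simp
    exact_mod_cast hWz
  -- sum over the tuples
  have hup2 : ∑ c ∈ Icc 1 N, f c ^ (2 * r) ≤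
      (r : ℝ) ^ (2 * r) * (Q.card : ℝ) ^ r * N + (Q.card : ℝ) ^ (2 * r) * (z : ℝ) ^ (2 * r) := by
    rw [hexp, ← sum_filter_add_sum_filter_not _ (fun u => (univ.image u).card ≤ r)]
    apply add_le_add
    · calc ∑ u ∈ (Fintype.piFinset (fun _ : Fin (2 * r) => Q)).filter
            (fun u => (univ.image u).card ≤ r), ∑ c ∈ Icc 1 N, ∏ i, g P (u i) c
          ≤ ∑ _u ∈ (Fintype.piFinset (fun _ : Fin (2 * r) => Q)).filter
            (fun u => (univ.image u).card ≤ r), (N : ℝ) :=
            sum_le_sum fun u hu => htriv u (mem_filter.1 hu).1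
        _ = (((Fintype.piFinset (fun _ : Fin (2 * r) => Q)).filter
            (fun u => (univ.image u).card ≤ r)).card : ℝ) * N := by
            rw [sum_const, nsmul_eq_mul]
        _ ≤ (r : ℝ) ^ (2 * r) * (Q.card : ℝ) ^ r * N := by
            apply mul_le_mul_of_nonneg_right _ (Nat.cast_nonneg _)
            exact_mod_cast card_few Q hne r
    · calc ∑ u ∈ (Fintype.piFinset (fun _ : Fin (2 * r) => Q)).filter
            (fun u => ¬ (univ.image u).card ≤ r), ∑ c ∈ Icc 1 N, ∏ i, g P (u i) c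
          ≤ ∑ _u ∈ (Fintype.piFinset (fun _ : Fin (2 * r) => Q)).filter
            (fun u => ¬ (univ.image u).card ≤ r), (z : ℝ) ^ (2 * r) :=
            sum_le_sum fun u hu => hsimple u (mem_filter.1 hu).1 (mem_filter.1 hu).2
        _ = (((Fintype.piFinset (fun _ : Fin (2 * r) => Q)).filter
            (fun u => ¬ (univ.image u).card ≤ r)).card : ℝ) * (z : ℝ) ^ (2 * r) := by
            rw [sum_const, nsmul_eq_mul]
        _ ≤ (Q.card : ℝ) ^ (2 * r) * (z : ℝ) ^ (2 * r) := by
            apply mul_le_mul_of_nonneg_right _ (by positivity)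
            have h1 : ((Fintype.piFinset (fun _ : Fin (2 * r) => Q)).filter
                (fun u => ¬ (univ.image u).card ≤ r)).card ≤ Q.card ^ (2 * r) := by
              refine (card_filter_le _ _).trans ?_
              rw [Fintype.card_piFinset]
              simp
            exact_mod_cast h1
  have hfin := hup1.trans hup2
  have hq2 : (0 : ℝ) < ((Q.card : ℝ) / 6) ^ (2 * r) := by positivity
  have e1 : ((Q.card : ℝ) / 6) ^ (2 * r) = (Q.card : ℝ) ^ r * (Q.card : ℝ) ^ r / 36 ^ r := by
    rw [div_pow, pow_mul (6 : ℝ) 2 r, two_mul, pow_add]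
    norm_num
  have e2 : (r : ℝ) ^ (2 * r) * (Q.card : ℝ) ^ r * N +
      (Q.card : ℝ) ^ (2 * r) * (z : ℝ) ^ (2 * r) =
      (N * (36 * (r : ℝ) ^ 2 / Q.card) ^ r + (36 * (z : ℝ) ^ 2) ^ r) *
        ((Q.card : ℝ) / 6) ^ (2 * r) := by
    rw [e1, div_pow, mul_pow, mul_pow, ← pow_mul, ← pow_mul, pow_mul (Q.card : ℝ) 2 r, sq, mul_pow]
    field_simp
  rw [e2] at hfin
  exact le_of_mul_le_mul_right hfin hq2

end Pool.Agent.Work.MP_2738db_nt_Z.helper55
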