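import Pool.Agent.Work.MP_2738db_nt_Z.Interface
import Pool.Agent.Work.MP_2738db_nt_W.SievePrimes

/-!
# MP_2738db_nt, Theorem Z, block DPR: many smooth `d`, pigeonhole over `k₀` (helper55)
-/

set_option autoImplicit false

namespace Pool.Agent.Work.MP_2738db_nt_Z.helper55

open Finset Filter Pool.Agent.Work.MP_2738db_nt_Z
open Pool.Agent.Work.MP_2738db_nt_U (PY)
open Pool.Agent.Work.MP_2738db_nt_W (primes_dyadic)

namespace Dpr

theorem mem_PY {y : ℝ} (hy : 0 ≤ y) {r : ℕ} (hr : r ∈ PY y) :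
    r.Prime ∧ y < r ∧ (r : ℝ) ≤ 2 * y := by
  rw [PY, mem_filter, mem_Ioc] at hr
  refine ⟨hr.2, (Nat.floor_lt hy).mp hr.1.1, ?_⟩
  exact (Nat.cast_le.mpr hr.1.2).trans (Nat.floor_le (by linarith))

/-- the exceptional modulus is avoided -/
theorem avoid {y : ℝ} (hy : 2 ≤ y) {l e : ℕ} (hl : l.Prime) (he : 2 * l < e) :
    ∃ X : Finset ℕ, X.card ≤ 2 ∧ ∀ s ⊆ PY y \ X, ¬ e ∣ 2 * l * ∏ r ∈ s, r := by
  have hP : ∀ r ∈ PY y, r.Prime ∧ y < r ∧ (r : ℝ) ≤ 2 * y := fun r hr => mem_PY (by linarith) hr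
  by_cases h : ∃ p ∈ PY y, p ∣ e ∧ p ≠ l
  · obtain ⟨p, hp, hpe, hpl⟩ := h
    refine ⟨{l, p}, card_le_two, ?_⟩
    intro s hs hd
    have hpp := (hP p hp).1
    have h1 : p ∣ 2 * l * ∏ r ∈ s, r := hpe.trans hd
    rcases (Nat.Prime.dvd_mul hpp).1 h1 with h2 | h2
    · rcases (Nat.Prime.dvd_mul hpp).1 h2 with h3 | h3
      · have h4 := Nat.le_of_dvd (by norm_num) h3
        have h5 := (hP p hp).2.1
        have h6 : (p : ℝ) ≤ 2 := by exact_mod_cast h4
        linarith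
      · exact hpl ((Nat.prime_dvd_prime_iff_eq hpp hl).1 h3)
    · obtain ⟨r, hr, h3⟩ := (hpp.prime.dvd_finsetProd_iff _).1 h2
      have hr' := mem_sdiff.1 (hs hr)
      have h4 := (Nat.prime_dvd_prime_iff_eq hpp (hP r hr'.1).1).1 h3
      apply hr'.2
      rw [← h4]
      simp
  · refine ⟨{l}, by simp, ?_⟩
    intro s hs hd
    have hco : Nat.Coprime e (∏ r ∈ s, r) := by
      apply Nat.Coprime.prod_right
      intro r hr
      have hr' := mem_sdiff.1 (hs hr)
      apply Nat.Coprime.symm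
      rw [Nat.Prime.coprime_iff_not_dvd (hP r hr'.1).1]
      intro h1
      apply h
      refine ⟨r, hr'.1, h1, ?_⟩
      intro h2
      apply hr'.2
      rw [h2]
      simp
    have h1 := hco.dvd_of_dvd_mul_right hd
    have h2 := Nat.le_of_dvd (Nat.mul_pos (by norm_num) hl.pos) h1
    omega

/-- many products -/
theorem choose_ge {n j : ℕ} {w : ℝ} (hw : 0 ≤ w) (h : (j : ℝ) * (1 + w) ≤ n + 1) :
    w ^ j ≤ (n.choose j : ℝ) := by
  rcases Nat.eq_zero_or_pos j with rfl | hj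
  · simp
  have hj' : (1 : ℝ) ≤ j := by exact_mod_cast hj
  have hjn : j ≤ n + 1 := by
    have : (j : ℝ) ≤ ((n + 1 : ℕ) : ℝ) := by
      push_cast
      nlinarith
    exact_mod_cast this
  have h1 := Nat.pow_le_choose (α := ℝ) j n
  have h2 : ((n + 1 - j : ℕ) : ℝ) = (n : ℝ) + 1 - j := by
    rw [Nat.cast_sub hjn]
    push_cast
    ring
  rw [h2] at h1
  have h3 : (j : ℝ) * w ≤ (n : ℝ) + 1 - j := by linarith
  have h4 : ((j : ℝ) * w) ^ j ≤ (j.factorial : ℝ) * (n.choose j : ℝ) := by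
    refine le_trans (pow_le_pow_left₀ (by positivity) h3 j) ?_
    have h5 : ((n : ℝ) + 1 - j) ^ j / (j.factorial : ℝ) ≤ (n.choose j : ℝ) := h1
    rw [div_le_iff₀ (by positivity)] at h5
    linarith
  have h5 : (j.factorial : ℝ) ≤ (j : ℝ) ^ j := by exact_mod_cast Nat.factorial_le_pow j
  have h6 : (0 : ℝ) < (j.factorial : ℝ) := by positivity
  rw [mul_pow] at h4
  have h7 : (j.factorial : ℝ) * w ^ j ≤ (j.factorial : ℝ) * (n.choose j : ℝ) :=
    (mul_le_mul_of_nonneg_right h5 (pow_nonneg hw j)).trans h4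
  exact le_of_mul_le_mul_left h7 h6

/-- one dyadic interval has many elements -/
theorem dyadic {B : ℝ} (hB : 0 < B) (j : ℕ) (D1 : Finset ℕ)
    (h : ∀ d ∈ D1, B ≤ d ∧ (d : ℝ) ≤ B * 2 ^ j) :
    ∃ i ∈ range (j + 1), (D1.card : ℝ) / (j + 1) ≤
      ((D1.filter (fun d : ℕ => B * 2 ^ i ≤ (d : ℝ) ∧ (d : ℝ) ≤ 2 * (B * 2 ^ i))).card : ℝ) := by
  classical
  by_contra hc
  push Not at hc
  have h1 : D1 ⊆ (range (j + 1)).biUnion (fun i =>
      D1.filter (fun d : ℕ => B * 2 ^ i ≤ (d : ℝ) ∧ (d : ℝ) ≤ 2 * (B * 2 ^ i))) := by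
    intro d hd
    obtain ⟨hd1, hd2⟩ := h d hd
    have hq : 1 ≤ (d : ℝ) / B := by
      rw [le_div_iff₀ hB]
      linarith
    set x := ⌊(d : ℝ) / B⌋₊ with hx
    have hx1 : 1 ≤ x := Nat.le_floor (by exact_mod_cast hq)
    have hx2 : (x : ℝ) ≤ d / B := Nat.floor_le (by linarith)
    have hx3 : (d : ℝ) / B < x + 1 := Nat.lt_floor_add_one _
    have h2 : 2 ^ Nat.log 2 x ≤ x := Nat.pow_log_le_self 2 (by omega)
    have h3 : x + 1 ≤ 2 ^ (Nat.log 2 x + 1) := Nat.lt_pow_succ_log_self (by norm_num) x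
    have h2' : (2 : ℝ) ^ Nat.log 2 x ≤ x := by exact_mod_cast h2
    have h3' : (x : ℝ) + 1 ≤ 2 ^ (Nat.log 2 x + 1) := by exact_mod_cast h3
    rw [mem_biUnion]
    refine ⟨Nat.log 2 x, ?_, ?_⟩
    · rw [mem_range, Nat.lt_succ_iff]
      have h4 : (2 : ℝ) ^ Nat.log 2 x ≤ 2 ^ j := by
        refine (h2'.trans hx2).trans ?_
        rw [div_le_iff₀ hB]
        linarith
      exact (pow_le_pow_iff_right₀ (by norm_num : (1 : ℝ) < 2)).1 h4
    · rw [mem_filter]
      refine ⟨hd, ?_, ?_⟩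
      · have h5 := h2'.trans hx2
        rw [le_div_iff₀ hB] at h5
        linarith
      · have h5 := hx3.le.trans h3'
        rw [div_le_iff₀ hB, pow_succ] at h5
        linarith
  have h2 := card_le_card h1
  have h3 := h2.trans card_biUnion_le
  have h4 : (D1.card : ℝ) ≤ ∑ i ∈ range (j + 1),
      ((D1.filter (fun d : ℕ => B * 2 ^ i ≤ (d : ℝ) ∧ (d : ℝ) ≤ 2 * (B * 2 ^ i))).card : ℝ) := by
    exact_mod_cast h3
  have h5 := sum_lt_sum_of_nonempty (s := range (j + 1)) ⟨0, by simp⟩ hc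
  rw [sum_const, card_range, nsmul_eq_mul] at h5
  push_cast at h5
  have h6 : ((j : ℝ) + 1) * ((D1.card : ℝ) / (j + 1)) = D1.card := by field_simp
  rw [h6] at h5
  linarith

/-- the primes of one modulus -/
theorem count_one {t D₀ : ℝ} {l d : ℕ} (hl : 0 < l) (hd : 0 < d) (hD0 : 0 < D₀)
    (h : D₀ ≤ d) :
    (PR t (2 * l * d)).card ≤ ((Icc 1 ⌊KZ t D₀ l⌋₊).filter (fun k =>
      (1 + 2 * l * d * k).Prime ∧ ((1 + 2 * l * d * k : ℕ) : ℝ) ≤ Real.exp t)).card := by
  set m := 2 * l * d with hm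
  have hm2 : 2 ≤ m := by
    rw [hm]
    have := Nat.mul_pos hl hd
    nlinarith
  have hX0 : 0 < Real.exp t := Real.exp_pos t
  have hl' : (0 : ℝ) < l := by exact_mod_cast hl
  have key : ∀ q ∈ PR t m, q = 1 + m * (q / m) ∧ 1 ≤ q / m := by
    intro q hq
    rw [PR, mem_filter] at hq
    have h1 : q % m = 1 := by
      have h3 : 1 % m = 1 := Nat.mod_eq_of_lt (lt_of_lt_of_le (by norm_num) hm2)
      rw [hq.2.2, h3]
    have h2 := Nat.mod_add_div q m
    rw [h1] at h2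
    refine ⟨h2.symm, ?_⟩
    by_contra hc
    have h3 : q / m = 0 := Nat.lt_one_iff.1 (not_le.1 hc)
    rw [h3, mul_zero, add_zero] at h2
    exact hq.2.1.one_lt.ne h2
  apply card_le_card_of_injOn (fun q => q / m)
  · intro q hq
    obtain ⟨h1, h2⟩ := key q hq
    have hq' := mem_filter.1 hq
    rw [mem_range, Nat.lt_succ_iff] at hq'
    have hqr : (q : ℝ) ≤ Real.exp t := (Nat.cast_le.mpr hq'.1).trans (Nat.floor_le hX0.le)
    show q / m ∈ _
    rw [mem_coe, mem_filter, mem_Icc, ← h1]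
    refine ⟨⟨h2, ?_⟩, hq'.2.1, hqr⟩
    apply Nat.le_floor
    unfold KZ
    rw [le_div_iff₀ (by positivity)]
    have h4 : (q : ℝ) = 1 + 2 * l * d * ((q / m : ℕ) : ℝ) := by
      have : (q : ℝ) = ((1 + m * (q / m) : ℕ) : ℝ) := by exact_mod_cast h1
      rw [this, hm]
      push_cast
      ring
    have h5 : ((q / m : ℕ) : ℝ) * (2 * l * D₀) ≤ ((q / m : ℕ) : ℝ) * (2 * l * d) := by gcongr
    linarith
  · intro q hq q' hq' heq
    have h1 := (key q hq).1
    have h2 := (key q' hq').1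
    have heq' : q / m = q' / m := heq
    rw [h1, h2, heq']

/-- pigeonhole over `k₀` -/
theorem pigeon {t D₀ : ℝ} {l : ℕ} (ht : 0 < t) (hl : 0 < l) (hD0 : 0 < D₀) (D : Finset ℕ)
    (hD : ∀ d ∈ D, 0 < d ∧ D₀ ≤ d)
    (hc : ∀ d ∈ D, KZ t D₀ l / (4 * t) ≤ ((PR t (2 * l * d)).card : ℝ))
    (E : Finset ℕ) (hE : (E.card : ℝ) ≤ KZ t D₀ l / (64 * t)) (n0 : ℝ)
    (hn00 : 0 ≤ n0)
    (hn0 : n0 * (64 * t) < 15 * (D.card : ℝ)) :
    ∃ k₀ : ℕ, k₀ ∉ E ∧ 1 ≤ k₀ ∧ (k₀ : ℝ) ≤ KZ t D₀ l ∧ n0 ≤ ((DQ t l k₀ D).card : ℝ) := by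
  classical
  have hl' : (0 : ℝ) < l := by exact_mod_cast hl
  have hK0 : 0 < KZ t D₀ l := by
    unfold KZ
    positivity
  set K := ⌊KZ t D₀ l⌋₊ with hK
  have hKr : (K : ℝ) ≤ KZ t D₀ l := Nat.floor_le hK0.le
  by_contra hcon
  push Not at hcon
  have h1 : (D.card : ℝ) * (KZ t D₀ l / (4 * t)) ≤
      ∑ d ∈ D, (((Icc 1 K).filter (fun k =>
      (1 + 2 * l * d * k).Prime ∧ ((1 + 2 * l * d * k : ℕ) : ℝ) ≤ Real.exp t)).card : ℝ) := by
    calc (D.card : ℝ) * (KZ t D₀ l / (4 * t)) = ∑ _d ∈ D, KZ t D₀ l / (4 * t) := by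
          rw [sum_const, nsmul_eq_mul]
      _ ≤ _ := by
          refine sum_le_sum fun d hd => (hc d hd).trans ?_
          exact_mod_cast count_one hl (hD d hd).1 hD0 (hD d hd).2
  have h2 : ∑ d ∈ D, (((Icc 1 K).filter (fun k =>
      (1 + 2 * l * d * k).Prime ∧ ((1 + 2 * l * d * k : ℕ) : ℝ) ≤ Real.exp t)).card : ℝ) =
      ∑ k ∈ Icc 1 K, ((DQ t l k D).card : ℝ) := by
    unfold DQ
    simp_rw [card_filter]
    push_cast
    rw [sum_comm]
  have h3 : ∑ k ∈ Icc 1 K, ((DQ t l k D).card : ℝ) =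
      ∑ k ∈ (Icc 1 K).filter (fun k => k ∈ E), ((DQ t l k D).card : ℝ) +
      ∑ k ∈ (Icc 1 K).filter (fun k => k ∉ E), ((DQ t l k D).card : ℝ) :=
    (sum_filter_add_sum_filter_not _ _ _).symm
  have h4 : ∑ k ∈ (Icc 1 K).filter (fun k => k ∈ E), ((DQ t l k D).card : ℝ) ≤
      KZ t D₀ l / (64 * t) * D.card := by
    calc ∑ k ∈ (Icc 1 K).filter (fun k => k ∈ E), ((DQ t l k D).card : ℝ)
        ≤ ∑ k ∈ (Icc 1 K).filter (fun k => k ∈ E), (D.card : ℝ) := by
          refine sum_le_sum fun k _ => ?_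
          exact_mod_cast card_filter_le _ _
      _ = (((Icc 1 K).filter (fun k => k ∈ E)).card : ℝ) * D.card := by
          rw [sum_const, nsmul_eq_mul]
      _ ≤ (E.card : ℝ) * D.card := by
          gcongr
          intro k hk
          exact (mem_filter.mp hk).2
      _ ≤ _ := by gcongr
  have h5 : ∀ k ∈ (Icc 1 K).filter (fun k => k ∉ E), ((DQ t l k D).card : ℝ) ≤ n0 := by
    intro k hk
    rw [mem_filter, mem_Icc] at hk
    exact (hcon k hk.2 hk.1.1 ((Nat.cast_le.mpr hk.1.2).trans hKr)).le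
  have h6 : ∑ k ∈ (Icc 1 K).filter (fun k => k ∉ E), ((DQ t l k D).card : ℝ) ≤
      KZ t D₀ l * n0 := by
    calc ∑ k ∈ (Icc 1 K).filter (fun k => k ∉ E), ((DQ t l k D).card : ℝ)
        ≤ ∑ k ∈ (Icc 1 K).filter (fun k => k ∉ E), n0 := sum_le_sum h5
      _ = (((Icc 1 K).filter (fun k => k ∉ E)).card : ℝ) * n0 := by
          rw [sum_const, nsmul_eq_mul]
      _ ≤ (K : ℝ) * n0 := by
          gcongr
          have := card_filter_le (Icc 1 K) (fun k => k ∉ E)
          rwa [Nat.card_Icc, Nat.add_sub_cancel] at this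
      _ ≤ _ := by
          gcongr
  rw [h2, h3] at h1
  have h7 : (D.card : ℝ) * (KZ t D₀ l / (4 * t)) - KZ t D₀ l / (64 * t) * D.card =
      KZ t D₀ l * (15 * D.card / (64 * t)) := by
    field_simp
    ring
  have h8 : KZ t D₀ l * (15 * D.card / (64 * t)) ≤ KZ t D₀ l * n0 := by linarith
  have h9 : 15 * (D.card : ℝ) / (64 * t) ≤ n0 := le_of_mul_le_mul_left h8 hK0
  rw [div_le_iff₀ (by positivity)] at h9
  linarith

/-- enough primes in `(y, 2y]` -/
theorem many {η : ℝ} (h0 : 0 < η) : ∃ Y : ℝ, ∀ y : ℝ, Y ≤ y →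
    2 * y ^ (1 - η / 6) ≤ y / (8 * Real.log y) - 2 := by
  have h1 : (fun x : ℝ => Real.log x) =o[atTop] fun x : ℝ => x ^ (η / 6) :=
    isLittleO_log_rpow_atTop (by positivity)
  have h2 := h1.bound (show (0 : ℝ) < 1 / 32 by norm_num)
  have h4 : ∀ᶠ y : ℝ in atTop, 32 * Real.log y ≤ y := by
    have h5 : (fun x : ℝ => Real.log x) =o[atTop] fun x : ℝ => x := Real.isLittleO_log_id_atTop
    have h6 := h5.bound (show (0 : ℝ) < 1 / 32 by norm_num)
    filter_upwards [h6, eventually_ge_atTop 1] with y hy hy1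
    rw [Real.norm_eq_abs, Real.norm_eq_abs, abs_of_nonneg (Real.log_nonneg hy1),
      abs_of_nonneg (by linarith)] at hy
    linarith
  have hev : ∀ᶠ y : ℝ in atTop, 2 * y ^ (1 - η / 6) ≤ y / (8 * Real.log y) - 2 := by
    filter_upwards [h2, h4, eventually_ge_atTop (Real.exp 1)] with y hy hy4 hye
    have hy1 : (1 : ℝ) ≤ y := by
      have := Real.add_one_le_exp (1 : ℝ)
      linarith
    have hy0 : 0 < y := by linarith
    have hlog : 1 ≤ Real.log y := by
      rw [Real.le_log_iff_exp_le hy0]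
      exact hye
    rw [Real.norm_eq_abs, Real.norm_eq_abs, abs_of_nonneg (Real.log_nonneg hy1),
      abs_of_nonneg (by positivity)] at hy
    have h5 : y ^ (1 - η / 6) * y ^ (η / 6) = y := by
      rw [← Real.rpow_add hy0]
      norm_num
    have h6 : y ^ (1 - η / 6) * (32 * Real.log y) ≤ y := by
      have h7 : 0 ≤ y ^ (1 - η / 6) := by positivity
      nlinarith
    rw [le_sub_iff_add_le, le_div_iff₀ (by positivity)]
    nlinarith
  obtain ⟨Y, hY⟩ := eventually_atTop.mp hev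
  exact ⟨Y, hY⟩

theorem a1 {η : ℝ} (h0 : 0 < η) (h1 : η ≤ 1) : 1 ≤ (1 + η) * (1 - η / 2) := by nlinarith

theorem a2 {j c B : ℝ} (hj : 0 ≤ j) (hc : c ≤ 1) (h : 8 * j ≤ B) : j * c ≤ B / 8 := by
  have h2 : j * c ≤ j * 1 := mul_le_mul_of_nonneg_left hc hj
  linarith

theorem a3 {a b : ℝ} (ha : 1 ≤ a) (hb : 1 ≤ b) : 1 ≤ a * b := by nlinarith

theorem a4 {β κ t : ℝ} (ht : 0 < t) (hβ : 0 < β) (h : β ≤ κ / 2) : β * t / 8 + β * t ≤ κ * t := by
  nlinarith

theorem a5 {β t : ℝ} (ht : 0 < t) (h : β ≤ 1 / 80) : β * t ≤ t / 40 := by nlinarith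

theorem a6 {j L B : ℝ} (hj : 0 ≤ j) (hL : 8 ≤ L) (h : j * L ≤ B) : 8 * j ≤ B := by nlinarith

theorem a7 {j β t : ℝ} (ht : 9 ≤ t) (hβ : β ≤ 1 / 80) (h : 8 * j ≤ β * t) : j + 1 ≤ t := by
  nlinarith

end Dpr

open Dpr

theorem stmt_Dpr (hS : Stmt_Sup) : Stmt_Dpr := by
  classical
  obtain ⟨κ, hκ, hSup⟩ := hS
  intro η h0 h1
  set β : ℝ := min (κ / 2) (1 / 80) with hβ
  have hβ0 : 0 < β := lt_min (by linarith) (by norm_num)
  have hβκ : β ≤ κ / 2 := min_le_left _ _
  have hβ80 : β ≤ 1 / 80 := min_le_right _ _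
  refine ⟨η * β / 5, by positivity, ?_⟩
  intro A
  obtain ⟨T1, hT1⟩ := hSup (A + 1)
  obtain ⟨Y1, hY1⟩ := primes_dyadic
  obtain ⟨Y2, hY2⟩ := many h0
  -- large `t`
  have hlogo : (fun x : ℝ => Real.log x) =o[atTop] fun x : ℝ => x := Real.isLittleO_log_id_atTop
  have hev1 : ∀ᶠ t : ℝ in atTop, Real.log 2 + A * Real.log t ≤ β * t / 8 := by
    have h2 := hlogo.bound (show (0 : ℝ) < β / (16 * (A + 1)) by positivity)
    filter_upwards [h2, eventually_ge_atTop 1, eventually_ge_atTop (16 * Real.log 2 / β)]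
      with t ht ht1 ht2
    rw [Real.norm_eq_abs, Real.norm_eq_abs, abs_of_nonneg (Real.log_nonneg ht1),
      abs_of_nonneg (by linarith)] at ht
    have h3 : A * Real.log t ≤ β * t / 16 := by
      have h4 : (A : ℝ) * Real.log t ≤ (A + 1) * (β / (16 * (A + 1)) * t) := by
        have h5 := Real.log_nonneg ht1
        have h6 : (0 : ℝ) ≤ A := Nat.cast_nonneg A
        nlinarith
      have h5 : ((A : ℝ) + 1) * (β / (16 * (A + 1)) * t) = β * t / 16 := by field_simp
      linarith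
    have h4 : Real.log 2 ≤ β * t / 16 := by
      rw [div_le_iff₀ hβ0] at ht2
      linarith
    linarith
  have hev2 : ∀ᶠ t : ℝ in atTop, 64 * t ^ 2 < 15 * Real.exp (η * β * t / 20) := by
    have h2 := (isLittleO_pow_exp_pos_mul_atTop 2 (show 0 < η * β / 20 by positivity)).bound
      (show (0 : ℝ) < 1 / 8 by norm_num)
    filter_upwards [h2] with t ht
    rw [Real.norm_eq_abs, Real.norm_eq_abs, abs_of_nonneg (by positivity),
      abs_of_nonneg (by positivity)] at ht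
    have h3 : η * β * t / 20 = η * β / 20 * t := by ring
    rw [h3]
    have h4 := Real.exp_pos (η * β / 20 * t)
    linarith
  obtain ⟨T2, hT2⟩ := eventually_atTop.mp hev1
  obtain ⟨T3, hT3⟩ := eventually_atTop.mp hev2
  refine ⟨max (max T1 (max T2 T3)) (max (max Y1 Y2) (Real.exp 8)), ?_⟩
  intro t y ht hty hyt l hl hlt
  have hA1 := (le_max_left _ _).trans ht
  have hA2 := (le_max_right _ _).trans ht
  have htT1 : T1 ≤ t := (le_max_left _ _).trans hA1
  have htT2 : T2 ≤ t := ((le_max_left _ _).trans (le_max_right _ _)).trans hA1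
  have htT3 : T3 ≤ t := ((le_max_right _ _).trans (le_max_right _ _)).trans hA1
  have htY1 : Y1 ≤ t := ((le_max_left _ _).trans (le_max_left _ _)).trans hA2
  have htY2 : Y2 ≤ t := ((le_max_right _ _).trans (le_max_left _ _)).trans hA2
  have hte : Real.exp 8 ≤ t := (le_max_right _ _).trans hA2
  have ht9 : (9 : ℝ) ≤ t := by
    have := Real.add_one_le_exp (8 : ℝ)
    linarith
  have ht0 : 0 < t := by linarith
  have hty' : t ≤ y := by
    refine le_trans ?_ hty
    nth_rewrite 1 [← Real.rpow_one t]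
    exact Real.rpow_le_rpow_of_exponent_le (by linarith) (by linarith)
  have hy0 : 0 < y := by linarith
  have hlogy : 8 ≤ Real.log y := by
    rw [Real.le_log_iff_exp_le hy0]
    linarith
  have hL : Real.log (2 * y) = Real.log 2 + Real.log y := Real.log_mul (by norm_num) hy0.ne'
  have hlog2 : 0 < Real.log 2 := Real.log_pos (by norm_num)
  have hlog2' := Real.log_two_lt_d9
  have hlogt0 : 0 ≤ Real.log t := Real.log_nonneg (by linarith)
  have hLt : Real.log (2 * y) ≤ β * t / 8 := by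
    rw [hL]
    have h2 : Real.log y ≤ A * Real.log t := by
      rw [← Real.log_pow]
      exact Real.log_le_log hy0 hyt
    linarith [hT2 t htT2]
  have htA : 2 * t ^ A ≤ Real.exp (β * t / 8) := by
    rw [← Real.log_le_iff_le_exp (by positivity), Real.log_mul (by norm_num) (by positivity),
      Real.log_pow]
    exact hT2 t htT2
  set L := Real.log (2 * y) with hLd
  have hL8 : 8 ≤ L := by linarith
  set j := ⌊β * t / L⌋₊ with hj
  have hj1 : (j : ℝ) ≤ β * t / L := Nat.floor_le (by positivity)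
  have hj2 : β * t / L < j + 1 := Nat.lt_floor_add_one _
  have hjL : (j : ℝ) * L ≤ β * t := by
    rwa [le_div_iff₀ (by linarith)] at hj1
  have hjL2 : β * t < (j + 1) * L := by
    rwa [div_lt_iff₀ (by linarith)] at hj2
  have hj0 : (0 : ℝ) ≤ j := Nat.cast_nonneg j
  have hj8 : 8 * (j : ℝ) ≤ β * t := a6 hj0 hL8 hjL
  have hjt : (j : ℝ) + 1 ≤ t := a7 ht9 hβ80 hj8
  -- the excluded primes
  obtain ⟨e, he1, he2⟩ := hT1 t htT1
  have hle : 2 * l < e := by
    have h2 : (2 * (l : ℝ)) < e := by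
      calc 2 * (l : ℝ) ≤ 2 * t ^ A := by gcongr
        _ ≤ t * t ^ A := mul_le_mul_of_nonneg_right (by linarith) (by positivity)
        _ = t ^ (A + 1) := by ring
        _ < e := he1
    exact_mod_cast h2
  obtain ⟨X, hX1, hX2⟩ := avoid (y := y) (by linarith) hl hle
  set P := PY y \ X with hP
  have hPm : ∀ r ∈ P, r.Prime ∧ y < r ∧ (r : ℝ) ≤ 2 * y := fun r hr =>
    mem_PY hy0.le (mem_sdiff.1 hr).1
  have hPc : 2 * y ^ (1 - η / 6) ≤ (P.card : ℝ) := by
    have h2 := hY1 y (by linarith)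
    have h3 := hY2 y (by linarith)
    have h4 : (PY y).card ≤ P.card + 2 := by
      have h5 := le_card_sdiff X (PY y)
      rw [hP]
      omega
    have h5 : ((PY y).card : ℝ) ≤ P.card + 2 := by exact_mod_cast h4
    have h6 : y / (8 * Real.log y) ≤ ((PY y).card : ℝ) := h2
    linarith
  -- the number of products
  have hy1 : (1 : ℝ) ≤ y := by linarith
  set w := y ^ (η / 3) with hw
  have hw1 : 1 ≤ w := Real.one_le_rpow hy1 (by positivity)
  have hchoose : w ^ j ≤ (P.card.choose j : ℝ) := by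
    apply choose_ge (by linarith)
    have h2 : t ≤ y ^ (1 - η / 2) := by
      have h3 : (t ^ (1 + η)) ^ (1 - η / 2) ≤ y ^ (1 - η / 2) :=
        Real.rpow_le_rpow (by positivity) hty (by linarith)
      rw [← Real.rpow_mul ht0.le] at h3
      refine le_trans ?_ h3
      nth_rewrite 1 [← Real.rpow_one t]
      exact Real.rpow_le_rpow_of_exponent_le (by linarith) (a1 h0 h1)
    have h3 : y ^ (1 - η / 2) * w = y ^ (1 - η / 6) := by
      rw [hw, ← Real.rpow_add hy0]
      congr 1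
      ring
    calc (j : ℝ) * (1 + w) ≤ t * (2 * w) := by
          apply mul_le_mul (by linarith) (by linarith) (by linarith) ht0.le
      _ ≤ y ^ (1 - η / 2) * (2 * w) := by gcongr
      _ = 2 * y ^ (1 - η / 6) := by rw [← h3]; ring
      _ ≤ P.card := hPc
      _ ≤ P.card + 1 := by linarith
  have hwj : Real.exp (η * β * t / 4) ≤ w ^ j := by
    have h2 : w ^ j = Real.exp (η / 3 * (j * Real.log y)) := by
      rw [hw, Real.rpow_def_of_pos hy0, ← Real.exp_nat_mul]
      congr 1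
      ring
    rw [h2]
    apply Real.exp_le_exp.2
    have h3 : (3 / 4) * (β * t) ≤ j * Real.log y := by
      have h4 : (j : ℝ) * Real.log y = j * L - j * Real.log 2 := by rw [hL]; ring
      rw [h4]
      have h5 : (j : ℝ) * Real.log 2 ≤ β * t / 8 := a2 hj0 (by linarith) hj8
      have h6 : ((j : ℝ) + 1) * L = j * L + L := by ring
      linarith
    have h4 : η / 3 * ((3 / 4) * (β * t)) ≤ η / 3 * (j * Real.log y) :=
      mul_le_mul_of_nonneg_left h3 (by positivity)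
    linarith
  set D1 := (P.powersetCard j).image (fun s => ∏ r ∈ s, r) with hD1
  have hD1c : D1.card = P.card.choose j := by
    rw [hD1, card_image_of_injOn, card_powersetCard]
    intro s hs s' hs' heq
    have hs2 := (mem_powersetCard.1 hs).1
    have hs2' := (mem_powersetCard.1 hs').1
    have heq' : ∏ r ∈ s, r = ∏ r ∈ s', r := heq
    have h4 : (∏ r ∈ s, r).primeFactors = s :=
      Nat.primeFactors_prod fun p hp => (hPm p (hs2 hp)).1
    have h5 : (∏ r ∈ s', r).primeFactors = s' :=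
      Nat.primeFactors_prod fun p hp => (hPm p (hs2' hp)).1
    rw [← h4, ← h5, heq']
  have hD1m : ∀ d ∈ D1, y ^ j ≤ d ∧ (d : ℝ) ≤ y ^ j * 2 ^ j := by
    intro d hd
    obtain ⟨s, hs, rfl⟩ := mem_image.1 hd
    obtain ⟨hs1, hs2⟩ := mem_powersetCard.1 hs
    push_cast
    constructor
    · calc y ^ j = ∏ _r ∈ s, y := by rw [prod_const, hs2]
        _ ≤ ∏ r ∈ s, (r : ℝ) :=
            prod_le_prod (fun _ _ => hy0.le) fun r hr => (hPm r (hs1 hr)).2.1.le
    · calc ∏ r ∈ s, (r : ℝ) ≤ ∏ _r ∈ s, (2 * y) :=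
            prod_le_prod (fun _ _ => Nat.cast_nonneg _) fun r hr => (hPm r (hs1 hr)).2.2
        _ = y ^ j * 2 ^ j := by rw [prod_const, hs2, mul_pow]; ring
  obtain ⟨i, hi, hDi⟩ := dyadic (B := y ^ j) (by positivity) j D1 hD1m
  set D := D1.filter (fun d : ℕ => y ^ j * 2 ^ i ≤ (d : ℝ) ∧ (d : ℝ) ≤ 2 * (y ^ j * 2 ^ i)) with hD
  have hyj1 : (1 : ℝ) ≤ y ^ j := one_le_pow₀ hy1
  have h2i1 : (1 : ℝ) ≤ 2 ^ i := one_le_pow₀ (by norm_num)
  have hD01 : (1 : ℝ) ≤ y ^ j * 2 ^ i := a3 hyj1 h2i1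
  have hexp : y ^ j * 2 ^ j ≤ Real.exp (β * t) := by
    rw [← mul_pow, ← Real.log_le_iff_le_exp (by positivity), Real.log_pow, mul_comm y 2]
    exact hjL
  have hij : (2 : ℝ) ^ i ≤ 2 ^ j := by
    apply pow_le_pow_right₀ (by norm_num)
    rw [mem_range] at hi
    omega
  refine ⟨D, y ^ j * 2 ^ i, hD01, ?_, ?_, ?_⟩
  · calc y ^ j * 2 ^ i ≤ y ^ j * 2 ^ j := by gcongr
      _ ≤ Real.exp (β * t) := hexp
      _ ≤ Real.exp (t / 40) := by
          exact Real.exp_le_exp.2 (a5 ht0 hβ80)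
  · intro d hd
    rw [hD, mem_filter] at hd
    refine ⟨hd.2.1, hd.2.2, ?_⟩
    obtain ⟨s, hs, rfl⟩ := mem_image.1 hd.1
    apply prod_dvd_prod_of_subset
    exact (mem_powersetCard.1 hs).1.trans sdiff_subset
  · intro E hE
    have hDm : ∀ d ∈ D, 0 < d ∧ y ^ j * 2 ^ i ≤ (d : ℝ) := by
      intro d hd
      rw [hD, mem_filter] at hd
      refine ⟨?_, hd.2.1⟩
      have : (1 : ℝ) ≤ d := hD01.trans hd.2.1
      have h2 : 1 ≤ d := by exact_mod_cast this
      omega
    have hl' : (0 : ℝ) < l := by exact_mod_cast hl.pos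
    refine pigeon ht0 hl.pos (by linarith) D hDm ?_ E hE _ (Real.exp_pos _).le ?_
    · intro d hd
      have hd' := hd
      rw [hD, mem_filter] at hd'
      obtain ⟨hdD1, hd2, hd3⟩ := hd'
      have hd0 : (0 : ℝ) < d := by exact_mod_cast (hDm d hd).1
      have hm1 : 1 ≤ 2 * l * d := Nat.mul_pos (Nat.mul_pos (by norm_num) hl.pos) (hDm d hd).1
      have hm2 : ((2 * l * d : ℕ) : ℝ) ≤ Real.exp (κ * t) := by
        push_cast
        calc 2 * (l : ℝ) * d ≤ 2 * t ^ A * Real.exp (β * t) := by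
              gcongr
              exact (hD1m d hdD1).2.trans hexp
          _ ≤ Real.exp (β * t / 8) * Real.exp (β * t) := by gcongr
          _ = Real.exp (β * t / 8 + β * t) := by rw [← Real.exp_add]
          _ ≤ Real.exp (κ * t) := Real.exp_le_exp.2 (a4 ht0 hβ0 hβκ)
      have hm3 : ¬ e ∣ 2 * l * d := by
        obtain ⟨s, hs, rfl⟩ := mem_image.1 hdD1
        exact hX2 s (mem_powersetCard.1 hs).1
      refine le_trans ?_ (he2 (2 * l * d) hm1 hm2 hm3)
      have h2 : ((2 * l * d).totient : ℝ) ≤ 2 * l * d := by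
        have := Nat.totient_le (2 * l * d)
        exact_mod_cast this
      have h3 : (0 : ℝ) < ((2 * l * d).totient : ℝ) := by
        exact_mod_cast Nat.totient_pos.2 (by omega)
      unfold KZ
      rw [div_div]
      apply div_le_div_of_nonneg_left (Real.exp_pos t).le (by positivity)
      calc 2 * ((2 * l * d).totient : ℝ) * t ≤ 2 * (2 * l * d) * t := by gcongr
        _ ≤ 2 * (2 * l * (2 * (y ^ j * 2 ^ i))) * t := by gcongr
        _ = 2 * l * (y ^ j * 2 ^ i) * (4 * t) := by ring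
    · have h2 : Real.exp (η * β * t / 4) / t ≤ (D.card : ℝ) := by
        calc Real.exp (η * β * t / 4) / t ≤ (D1.card : ℝ) / t := by
              rw [hD1c]
              gcongr
              exact hwj.trans hchoose
          _ ≤ (D1.card : ℝ) / (j + 1) := by
              apply div_le_div_of_nonneg_left (Nat.cast_nonneg _) (by positivity) hjt
          _ ≤ _ := hDi
      have h3 := hT3 t htT3
      have h4 : Real.exp (η * β * t / 4) =
          Real.exp (η * β / 5 * t) * Real.exp (η * β * t / 20) := by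
        rw [← Real.exp_add]
        congr 1
        ring
      rw [h4, div_le_iff₀ ht0] at h2
      have h5 := Real.exp_pos (η * β / 5 * t)
      have h6 : Real.exp (η * β / 5 * t) * (64 * t ^ 2) <
          Real.exp (η * β / 5 * t) * (15 * Real.exp (η * β * t / 20)) :=
        mul_lt_mul_of_pos_left h3 h5
      have h7 : Real.exp (η * β / 5 * t) * (64 * t) * t < 15 * (D.card : ℝ) * t := by
        calc Real.exp (η * β / 5 * t) * (64 * t) * t =
              Real.exp (η * β / 5 * t) * (64 * t ^ 2) := by ring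
          _ < Real.exp (η * β / 5 * t) * (15 * Real.exp (η * β * t / 20)) := h6
          _ = 15 * (Real.exp (η * β / 5 * t) * Real.exp (η * β * t / 20)) := by ring
          _ ≤ 15 * (D.card * t) := by gcongr
          _ = 15 * (D.card : ℝ) * t := by ring
      exact lt_of_mul_lt_mul_right h7 ht0.le

end Pool.Agent.Work.MP_2738db_nt_Z.helper55
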